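import Pool.Agent.helper94.FIP.Spec
import Pool.Agent.helper85.BVP.PairSieve

set_option autoImplicit false

namespace Pool.Agent.FIP

open Finset Pool.Agent.Lib.BrunHooley
open Pool.Agent.SCT (ff)

/-- residues to be avoided -/
private def PSV_C (a l : ℕ) : Finset ℕ :=
  if l.Prime then (range l).filter (fun c => c = 0 ∨ (l : ℤ) ∣ 8 * (c : ℤ) ^ 2 - (a : ℤ) ^ 2) else ∅

private theorem PSV_mem {a l c : ℕ} (hl : l.Prime) : c ∈ PSV_C a l ↔
    c < l ∧ (c = 0 ∨ (l : ℤ) ∣ 8 * (c : ℤ) ^ 2 - (a : ℤ) ^ 2) := by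
  unfold PSV_C
  rw [if_pos hl, mem_filter, mem_range]

private theorem PSV_np {a l : ℕ} (hl : ¬ l.Prime) : PSV_C a l = ∅ := by
  unfold PSV_C
  rw [if_neg hl]

private theorem PSV_two {a : ℕ} (ha : Odd a) : PSV_C a 2 ⊆ {0} := by
  intro c hc
  rw [PSV_mem Nat.prime_two] at hc
  obtain ⟨h1, h2 | h2⟩ := hc
  · simp [h2]
  · exfalso
    obtain ⟨k, rfl⟩ := ha
    obtain ⟨m, hm⟩ := h2
    push_cast at hm
    have e : 8 * (c : ℤ) ^ 2 - (2 * (k : ℤ) + 1) ^ 2 =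
        2 * (4 * (c : ℤ) ^ 2 - 2 * (k : ℤ) ^ 2 - 2 * k - 1) + 1 := by ring
    rw [e] at hm
    omega

private theorem PSV_three {a : ℕ} : PSV_C a 3 ⊆ {0} := by
  intro c hc
  rw [PSV_mem Nat.prime_three] at hc
  obtain ⟨h1, h2⟩ := hc
  rw [mem_singleton]
  rcases h2 with h2 | h2
  · exact h2
  · by_contra h0
    have h3 : (a : ℤ) ^ 2 % 3 = 0 ∨ (a : ℤ) ^ 2 % 3 = 1 := by
      have h4 : (a : ℤ) % 3 = 0 ∨ (a : ℤ) % 3 = 1 ∨ (a : ℤ) % 3 = 2 := by omega
      rcases h4 with h4 | h4 | h4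
      · left; rw [pow_two, Int.mul_emod, h4]; rfl
      · right; rw [pow_two, Int.mul_emod, h4]; rfl
      · right; rw [pow_two, Int.mul_emod, h4]; rfl
    have h5 : c = 1 ∨ c = 2 := by omega
    rcases h5 with rfl | rfl
    · norm_num at h2
      omega
    · norm_num at h2
      omega

private theorem PSV_le3 (a l : ℕ) : #(PSV_C a l) ≤ 3 := by
  by_cases hl : l.Prime
  swap
  · rw [PSV_np hl]; simp
  by_cases h2 : l = 2
  · subst h2
    have : PSV_C a 2 ⊆ range 2 := fun c hc => mem_range.2 ((PSV_mem Nat.prime_two).1 hc).1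
    exact (card_le_card this).trans (by simp)
  by_cases hex : ∃ c₁ : ℕ, 0 < c₁ ∧ c₁ < l ∧ (l : ℤ) ∣ 8 * (c₁ : ℤ) ^ 2 - (a : ℤ) ^ 2
  · obtain ⟨c₁, h0, h1, hd⟩ := hex
    have hsub : PSV_C a l ⊆ {0, c₁, l - c₁} := by
      intro c hc
      rw [PSV_mem hl] at hc
      obtain ⟨hcl, h3 | h3⟩ := hc
      · simp [h3]
      · have h4 : (l : ℤ) ∣ 8 * (((c : ℤ) - c₁) * ((c : ℤ) + c₁)) := by
          have h5 := dvd_sub h3 hd
          have e : 8 * (c : ℤ) ^ 2 - (a : ℤ) ^ 2 - (8 * (c₁ : ℤ) ^ 2 - (a : ℤ) ^ 2) =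
              8 * (((c : ℤ) - c₁) * ((c : ℤ) + c₁)) := by ring
          rwa [e] at h5
        have hlp : Prime (l : ℤ) := Nat.prime_iff_prime_int.1 hl
        rcases hlp.dvd_or_dvd h4 with h5 | h5
        · exfalso
          have h6 : l ∣ 2 ^ 3 := by
            have h7 : (l : ℤ) ∣ ((2 ^ 3 : ℕ) : ℤ) := by simpa using h5
            exact Int.natCast_dvd_natCast.1 h7
          exact h2 ((Nat.prime_dvd_prime_iff_eq hl Nat.prime_two).1 (hl.dvd_of_dvd_pow h6))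
        · rcases hlp.dvd_or_dvd h5 with h6 | h6
          · have h7 : (c : ℤ) - c₁ = 0 := Int.eq_zero_of_abs_lt_dvd h6 (by
              rw [abs_lt]; constructor <;> omega)
            have h8 : c = c₁ := by omega
            simp [h8]
          · have h7 : l ∣ c + c₁ := by exact_mod_cast h6
            obtain ⟨m, hm⟩ := h7
            have h8 : m < 2 := by
              by_contra hc
              have : l * 2 ≤ l * m := Nat.mul_le_mul_left l (by omega)
              omega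
            have h9 : m ≠ 0 := by
              rintro rfl
              omega
            have h10 : m = 1 := by omega
            subst h10
            have h11 : c = l - c₁ := by omega
            simp [h11]
    exact (card_le_card hsub).trans card_le_three
  · have hsub : PSV_C a l ⊆ {0} := by
      intro c hc
      rw [PSV_mem hl] at hc
      obtain ⟨hcl, h3 | h3⟩ := hc
      · simp [h3]
      · rw [mem_singleton]
        by_contra h4
        exact hex ⟨c, Nat.pos_of_ne_zero h4, hcl, h3⟩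
    exact (card_le_card hsub).trans (by simp)

private theorem PSV_lt {a l : ℕ} (ha : Odd a) (hl : l.Prime) : #(PSV_C a l) < l := by
  have h2 := hl.two_le
  by_cases h3 : l = 2
  · subst h3
    exact lt_of_le_of_lt (card_le_card (PSV_two ha)) (by simp)
  by_cases h4 : l = 3
  · subst h4
    exact lt_of_le_of_lt (card_le_card PSV_three) (by simp)
  have h5 : l ≠ 4 := by
    rintro rfl
    exact absurd hl (by norm_num)
  exact lt_of_le_of_lt (PSV_le3 a l) (by omega)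

private theorem PSV_ge1 {a l : ℕ} (hl : l.Prime) : 1 ≤ #(PSV_C a l) := by
  rw [Nat.one_le_iff_ne_zero, ← Nat.pos_iff_ne_zero, card_pos]
  exact ⟨0, (PSV_mem hl).2 ⟨hl.pos, Or.inl rfl⟩⟩

private theorem PSV_ge3 {a l : ℕ} (hl : l.Prime) (h8 : l % 8 = 1 ∨ l % 8 = 7) (hla : ¬ l ∣ a) :
    3 ≤ #(PSV_C a l) := by
  have : Fact l.Prime := ⟨hl⟩
  have hne : NeZero l := ⟨hl.ne_zero⟩
  have h2 : l ≠ 2 := by
    rintro rfl
    omega
  obtain ⟨s, hs⟩ := (ZMod.exists_sq_eq_two_iff h2).2 h8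
  have h20 : (2 : ZMod l) ≠ 0 := by
    intro h
    have h3 : ((2 : ℕ) : ZMod l) = 0 := by exact_mod_cast h
    rw [ZMod.natCast_eq_zero_iff] at h3
    exact h2 ((Nat.prime_dvd_prime_iff_eq hl Nat.prime_two).1 h3)
  have hs0 : s ≠ 0 := by
    rintro rfl
    exact h20 (by rw [hs, mul_zero])
  have ha0 : (a : ZMod l) ≠ 0 := by
    intro h
    rw [ZMod.natCast_eq_zero_iff] at h
    exact hla h
  set r : ZMod l := (a : ZMod l) * (2 * s)⁻¹ with hr
  have hr0 : r ≠ 0 := mul_ne_zero ha0 (inv_ne_zero (mul_ne_zero h20 hs0))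
  have hr2 : 8 * r ^ 2 = (a : ZMod l) ^ 2 := by
    rw [hr]
    field_simp
    linear_combination 4 * hs
  have hmem : ∀ u : ZMod l, 8 * u ^ 2 = (a : ZMod l) ^ 2 → u.val ∈ PSV_C a l := by
    intro u hu
    rw [PSV_mem hl]
    refine ⟨ZMod.val_lt u, Or.inr ?_⟩
    rw [← ZMod.intCast_zmod_eq_zero_iff_dvd]
    push_cast
    rw [ZMod.natCast_val, ZMod.cast_id', id_eq, hu, sub_self]
  have hsub : {0, r.val, (-r).val} ⊆ PSV_C a l := by
    intro c hc
    rw [mem_insert, mem_insert, mem_singleton] at hc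
    rcases hc with rfl | rfl | rfl
    · exact (PSV_mem hl).2 ⟨hl.pos, Or.inl rfl⟩
    · exact hmem r hr2
    · exact hmem (-r) (by rw [neg_sq]; exact hr2)
  have hcard : #({0, r.val, (-r).val} : Finset ℕ) = 3 := by
    rw [card_eq_three]
    refine ⟨0, r.val, (-r).val, ?_, ?_, ?_, rfl⟩
    · intro h
      exact hr0 ((ZMod.val_eq_zero r).1 h.symm)
    · intro h
      exact hr0 (neg_eq_zero.1 ((ZMod.val_eq_zero (-r)).1 h.symm))
    · intro h
      have h3 : r = -r := ZMod.val_injective l h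
      have h4 : 2 * r = 0 := by linear_combination h3
      exact hr0 ((mul_eq_zero.1 h4).resolve_left h20)
  rw [← hcard]
  exact card_le_card hsub

private theorem PSV_exp (y : ℝ) (hy : 0 ≤ y) : Real.exp (2 * y) ≤ (1 + y) ^ 2 * Real.exp (y ^ 2) := by
  have h1 := Real.le_log_one_add_of_nonneg hy
  have h2 : y - y ^ 2 / 2 ≤ 2 * y / (y + 2) := by
    rw [le_div_iff₀ (by linarith)]
    nlinarith [pow_nonneg hy 3]
  have h3 : 2 * y ≤ 2 * Real.log (1 + y) + y ^ 2 := by linarith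
  calc Real.exp (2 * y) ≤ Real.exp (2 * Real.log (1 + y) + y ^ 2) := Real.exp_le_exp.2 h3
    _ = (1 + y) ^ 2 * Real.exp (y ^ 2) := by
      rw [Real.exp_add, two_mul, Real.exp_add, Real.exp_log (by linarith)]
      ring

private theorem PSV_ff : ∃ K : ℝ, 0 < K ∧ ∀ a : ℕ,
    Real.exp (∑ l ∈ a.primeFactors, 2 / (l : ℝ)) ≤ K * ff a ^ 2 := by
  have hsum : Summable (fun n : ℕ => 1 / (n : ℝ) ^ 2) := Real.summable_one_div_nat_pow.2 (by norm_num)
  refine ⟨Real.exp (∑' n : ℕ, 1 / (n : ℝ) ^ 2), Real.exp_pos _, fun a => ?_⟩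
  have h1 : ∀ l : ℕ, Real.exp (2 / (l : ℝ)) ≤ (1 + 1 / (l : ℝ)) ^ 2 * Real.exp (1 / (l : ℝ) ^ 2) := by
    intro l
    have h2 := PSV_exp (1 / (l : ℝ)) (by positivity)
    have e1 : 2 * (1 / (l : ℝ)) = 2 / l := by ring
    have e2 : (1 / (l : ℝ)) ^ 2 = 1 / (l : ℝ) ^ 2 := by rw [div_pow, one_pow]
    rwa [e1, e2] at h2
  rw [Real.exp_sum]
  calc ∏ l ∈ a.primeFactors, Real.exp (2 / (l : ℝ)) ≤
      ∏ l ∈ a.primeFactors, ((1 + 1 / (l : ℝ)) ^ 2 * Real.exp (1 / (l : ℝ) ^ 2)) :=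
        prod_le_prod (fun l _ => (Real.exp_pos _).le) (fun l _ => h1 l)
    _ = ff a ^ 2 * Real.exp (∑ l ∈ a.primeFactors, 1 / (l : ℝ) ^ 2) := by
      rw [prod_mul_distrib, prod_pow, Real.exp_sum]
      rfl
    _ ≤ ff a ^ 2 * Real.exp (∑' n : ℕ, 1 / (n : ℝ) ^ 2) := by
      refine mul_le_mul_of_nonneg_left ?_ (sq_nonneg _)
      exact Real.exp_le_exp.2 (hsum.sum_le_tsum _ (fun n _ => by positivity))
    _ = _ := mul_comm _ _

private theorem PSV_prod (hM8 : M8_stmt) : ∃ K : ℝ, 0 < K ∧ ∀ z : ℕ, 2 ≤ z → ∀ a : ℕ, a ≠ 0 →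
    Odd a → ∏ l ∈ Nat.primesLE z, (1 - (#(PSV_C a l) : ℝ) / l) ≤ K / Real.log z ^ 2 * ff a ^ 2 := by
  obtain ⟨C, hC, hM⟩ := hM8
  obtain ⟨K, hK, hff⟩ := PSV_ff
  refine ⟨Real.exp C * K, by positivity, ?_⟩
  intro z hz a ha0 ha
  have hz' : (2 : ℝ) ≤ z := by exact_mod_cast hz
  have hlz : 0 < Real.log z := Real.log_pos (by linarith)
  set T : Finset ℕ := (Icc 1 z).filter (fun l => l.Prime ∧ (l % 8 = 1 ∨ l % 8 = 7)) with hT
  have hTS : T ⊆ Nat.primesLE z := by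
    intro l hl
    rw [hT, mem_filter, mem_Icc] at hl
    exact Nat.mem_primesLE.2 ⟨hl.1.2, hl.2.1⟩
  set T' : Finset ℕ := T.filter (fun l => ¬ l ∣ a) with hT'
  have hT'S : T' ⊆ Nat.primesLE z := (filter_subset _ _).trans hTS
  have h1 : ∀ l ∈ Nat.primesLE z, 1 - (#(PSV_C a l) : ℝ) / l ≤
      (1 - 1 / (l : ℝ)) * (if l ∈ T' then Real.exp (-(2 / (l : ℝ))) else 1) := by
    intro l hl
    have hlp := (Nat.mem_primesLE.mp hl).2
    have hl0 : (0 : ℝ) < l := by exact_mod_cast hlp.pos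
    have hl1 : (1 : ℝ) ≤ l := by exact_mod_cast hlp.one_lt.le
    split_ifs with hmem
    · rw [hT', mem_filter, hT, mem_filter] at hmem
      have h3 : (3 : ℝ) ≤ #(PSV_C a l) := by exact_mod_cast PSV_ge3 hlp hmem.1.2.2 hmem.2
      have h4 : 1 - (#(PSV_C a l) : ℝ) / l ≤ 1 - 3 / l := by
        have := div_le_div_of_nonneg_right h3 hl0.le
        linarith
      have h5 : 1 - 2 / (l : ℝ) ≤ Real.exp (-(2 / (l : ℝ))) := by
        have := Real.add_one_le_exp (-(2 / (l : ℝ)))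
        linarith
      have h6 : (0 : ℝ) ≤ 1 - 1 / l := by
        rw [sub_nonneg, div_le_one hl0]
        exact hl1
      have h7 : 1 - 3 / (l : ℝ) ≤ (1 - 1 / l) * (1 - 2 / l) := by
        have e : (1 - 1 / (l : ℝ)) * (1 - 2 / l) = 1 - 3 / l + 2 * (1 / (l : ℝ)) ^ 2 := by ring
        rw [e]
        have := sq_nonneg (1 / (l : ℝ))
        linarith
      exact (h4.trans h7).trans (mul_le_mul_of_nonneg_left h5 h6)
    · rw [mul_one]
      have h3 : (1 : ℝ) ≤ #(PSV_C a l) := by exact_mod_cast PSV_ge1 (a := a) hlp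
      have := div_le_div_of_nonneg_right h3 hl0.le
      linarith
  have h2 : ∏ l ∈ Nat.primesLE z, (1 - (#(PSV_C a l) : ℝ) / l) ≤
      (∏ l ∈ Nat.primesLE z, (1 - 1 / (l : ℝ))) * Real.exp (-∑ l ∈ T', 2 / (l : ℝ)) := by
    refine (prod_le_prod (fun l hl => ?_) h1).trans (le_of_eq ?_)
    · have hlp := (Nat.mem_primesLE.mp hl).2
      rw [sub_nonneg, div_le_one (by exact_mod_cast hlp.pos)]
      exact_mod_cast (PSV_lt ha hlp).le
    · rw [prod_mul_distrib]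
      congr 1
      rw [prod_ite, prod_const_one, mul_one, ← sum_neg_distrib, Real.exp_sum]
      refine prod_congr ?_ fun _ _ => rfl
      ext l
      rw [mem_filter]
      exact ⟨fun h => h.2, fun h => ⟨hT'S h, h⟩⟩
  have h3 : ∑ l ∈ T, 2 / (l : ℝ) ≤ ∑ l ∈ T', 2 / (l : ℝ) + ∑ l ∈ a.primeFactors, 2 / (l : ℝ) := by
    have h4 := sum_filter_add_sum_filter_not T (fun l => ¬ l ∣ a) (fun l : ℕ => 2 / (l : ℝ))
    have h5 : ∑ l ∈ T.filter (fun l => ¬ ¬ l ∣ a), 2 / (l : ℝ) ≤ ∑ l ∈ a.primeFactors, 2 / (l : ℝ) := by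
      refine sum_le_sum_of_subset_of_nonneg ?_ (fun l _ _ => by positivity)
      intro l hl
      rw [mem_filter, not_not] at hl
      exact Nat.mem_primeFactors.2 ⟨(Nat.mem_primesLE.1 (hTS hl.1)).2, hl.2, ha0⟩
    rw [← h4]
    linarith
  have h4 := hM z hz
  have h5 : -∑ l ∈ T', 2 / (l : ℝ) ≤ C - Real.log (Real.log z) + ∑ l ∈ a.primeFactors, 2 / (l : ℝ) := by
    linarith
  have h6 : Real.exp (-∑ l ∈ T', 2 / (l : ℝ)) ≤ Real.exp C / Real.log z * (K * ff a ^ 2) := by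
    refine (Real.exp_le_exp.2 h5).trans ?_
    rw [Real.exp_add, Real.exp_sub, Real.exp_log hlz]
    exact mul_le_mul_of_nonneg_left (hff a) (by positivity)
  have h7 := Pool.Agent.Lib.PrimeSums.prod_one_sub_le z (by omega)
  have h8 : 1 / Real.log ((z : ℝ) + 1) ≤ 1 / Real.log z :=
    one_div_le_one_div_of_le hlz (Real.log_le_log (by linarith) (by linarith))
  calc _ ≤ _ := h2
    _ ≤ 1 / Real.log z * (Real.exp C / Real.log z * (K * ff a ^ 2)) := by
      refine mul_le_mul (h7.trans h8) h6 (Real.exp_pos _).le (by positivity)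
    _ = _ := by
      field_simp

private theorem PSV_one_le_ff (a : ℕ) : 1 ≤ ff a := by
  unfold ff
  have h1 : ∏ _l ∈ a.primeFactors, (1 : ℝ) ≤ ∏ l ∈ a.primeFactors, (1 + 1 / (l : ℝ)) := by
    refine prod_le_prod (fun _ _ => zero_le_one) (fun l _ => ?_)
    have : (0 : ℝ) ≤ 1 / (l : ℝ) := by positivity
    linarith
  rwa [prod_const_one] at h1

private theorem PSV_count {x z a : ℕ} (hzx : z ≤ x) (hax : a ≤ x) :
    cta x a ≤ #(sifted x x z (PSV_C a)) := by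
  unfold cta
  refine card_le_card ?_
  intro n hn
  rw [mem_filter, mem_Ioc] at hn
  obtain ⟨⟨h1, h2⟩, h3, h4⟩ := hn
  rw [sifted, mem_filter, mem_Ioc]
  refine ⟨⟨h1, by omega⟩, ?_⟩
  intro l hl hmem
  obtain ⟨hlz, hlp⟩ := Nat.mem_primesLE.mp hl
  rw [PSV_mem hlp] at hmem
  obtain ⟨-, h5 | h5⟩ := hmem
  · have h6 : l ∣ n := Nat.dvd_of_mod_eq_zero h5
    have h7 := (Nat.prime_dvd_prime_iff_eq hlp h3).1 h6
    omega
  · have hle : a ^ 2 ≤ 8 * n ^ 2 := by
      have : a ^ 2 ≤ n ^ 2 := Nat.pow_le_pow_left (by omega) 2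
      omega
    have h6 : (l : ℤ) ∣ ((8 * n ^ 2 - a ^ 2 : ℕ) : ℤ) := by
      push_cast [Nat.cast_sub hle]
      have h7 : (l : ℤ) ∣ (n : ℤ) - ((n % l : ℕ) : ℤ) := by
        rw [Int.natCast_mod]
        exact Int.dvd_self_sub_emod
      have e : 8 * (n : ℤ) ^ 2 - (a : ℤ) ^ 2 = (8 * ((n % l : ℕ) : ℤ) ^ 2 - (a : ℤ) ^ 2) +
          ((n : ℤ) - ((n % l : ℕ) : ℤ)) * (8 * ((n : ℤ) + ((n % l : ℕ) : ℤ))) := by ring
      rw [e]
      exact dvd_add h5 (h7.mul_right _)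
    have h8 : l ∣ 8 * n ^ 2 - a ^ 2 := Int.natCast_dvd_natCast.1 h6
    have h9 := (Nat.prime_dvd_prime_iff_eq hlp h4).1 h8
    have h10 : n ≤ n ^ 2 := Nat.le_self_pow (by norm_num) n
    have h11 : a ^ 2 ≤ n ^ 2 := Nat.pow_le_pow_left (by omega) 2
    omega

theorem PSV (hM8 : M8_stmt) : PSV_stmt := by
  obtain ⟨K, hK, hprod⟩ := PSV_prod hM8
  obtain ⟨B, hB⟩ := interval_sieve 3
  refine ⟨32 * (B + 1) ^ 2 * K + 16, 4 ^ (B + 1), by positivity, ?_⟩
  intro x hx a ha hax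
  have ha0 : a ≠ 0 := by
    rintro rfl
    exact absurd ha (by decide)
  obtain ⟨r, hr1, hr2⟩ := Pool.Agent.helper85.BVP.pick_r B x hx
  set z := Z r with hz
  have hz2 : 2 ≤ z := two_le_Z r
  have h4 : 4 ≤ 4 ^ (B + 1) := Nat.le_self_pow (by omega) 4
  have hx1 : 1 < x := by omega
  have hxr : (0 : ℝ) < x := by exact_mod_cast (by omega : 0 < x)
  have hlogx : 0 < Real.log x := Real.log_pos (by exact_mod_cast hx1)
  have hzx : z ≤ x := (Nat.le_self_pow (by omega) z).trans hr1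
  have hz1 : (1 : ℝ) < z := by exact_mod_cast (by omega : 1 < z)
  have hlogz : 0 < Real.log z := Real.log_pos hz1
  have hs := (hB r x x (PSV_C a) (fun p hp c hc => ((PSV_mem hp).1 hc).1) (PSV_le3 a)
    (fun p hp => PSV_lt ha hp)).2
  have hp := hprod z hz2 a ha0 ha
  have hff := PSV_one_le_ff a
  have hff2 : 1 ≤ ff a ^ 2 := one_le_pow₀ hff
  have hc : (cta x a : ℝ) ≤ #(sifted x x z (PSV_C a)) := by exact_mod_cast PSV_count hzx hax
  have hzB : (z : ℝ) ^ B ≤ √x := by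
    apply Real.le_sqrt_of_sq_le
    have h1 : (z : ℝ) ^ (2 * (B + 1)) ≤ x := by exact_mod_cast hr1
    refine le_trans ?_ h1
    rw [← pow_mul]
    exact pow_le_pow_right₀ hz1.le (by omega)
  have herr : (z : ℝ) ^ B ≤ 16 * (x / Real.log x ^ 2) := by
    rw [← mul_div_assoc, le_div_iff₀ (by positivity)]
    calc (z : ℝ) ^ B * Real.log x ^ 2 ≤ √x * Real.log x ^ 2 := by gcongr
      _ ≤ 16 * (x : ℝ) := Pool.Agent.helper85.BVP.sqrt_mul_log_sq_le x (by omega)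
  have hmain : K / Real.log z ^ 2 * ff a ^ 2 ≤
      16 * (B + 1) ^ 2 * K / Real.log x ^ 2 * ff a ^ 2 := by
    refine mul_le_mul_of_nonneg_right ?_ (by positivity)
    rw [div_le_div_iff₀ (by positivity) (by positivity)]
    have h6 : Real.log x ^ 2 ≤ (4 * (B + 1) * Real.log z) ^ 2 := pow_le_pow_left₀ hlogx.le hr2 2
    calc K * Real.log x ^ 2 ≤ K * (4 * (B + 1) * Real.log z) ^ 2 := by gcongr
      _ = _ := by ring
  calc (cta x a : ℝ) ≤ #(sifted x x z (PSV_C a)) := hc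
    _ ≤ 2 * (x : ℝ) * ∏ l ∈ Nat.primesLE z, (1 - ((#(PSV_C a l) : ℕ) : ℝ) / l) + (z : ℝ) ^ B := hs
    _ ≤ 2 * (x : ℝ) * (16 * (B + 1) ^ 2 * K / Real.log x ^ 2 * ff a ^ 2) + 16 * (x / Real.log x ^ 2) := by
        refine add_le_add ?_ herr
        exact mul_le_mul_of_nonneg_left (hp.trans hmain) (by positivity)
    _ ≤ 2 * (x : ℝ) * (16 * (B + 1) ^ 2 * K / Real.log x ^ 2 * ff a ^ 2) +
        16 * (x / Real.log x ^ 2) * ff a ^ 2 := by
        have h8 : 0 ≤ 16 * ((x : ℝ) / Real.log x ^ 2) := by positivity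
        nlinarith
    _ = _ := by ring

end Pool.Agent.FIP
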